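import Mathlib

/-! Abstract Clifford relations: decomposition, centraliser, products of generators. -/

namespace Q122.SR

open Algebra

section Abstract

variable {A : Type*} [Ring A] [Algebra ℝ A] {ι : Type*} [DecidableEq ι]

/-- The Clifford relations for a family of elements. -/
structure Rel (f : ι → A) : Prop where
  sq : ∀ i, f i * f i = -1
  anti : ∀ i j, i ≠ j → f i * f j = -(f j * f i)

lemma swap {f : ι → A} (hf : Rel f) (s : Set ι) (i : ι) (hi : i ∉ s) {c : A}
    (hc : c ∈ adjoin ℝ (f '' s)) : ∃ c' ∈ adjoin ℝ (f '' s), f i * c = c' * f i := by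
  induction hc using adjoin_induction with
  | mem x hx =>
    obtain ⟨j, hj, rfl⟩ := hx
    have hij : i ≠ j := by rintro rfl; exact hi hj
    exact ⟨-f j, neg_mem (subset_adjoin ⟨j, hj, rfl⟩), by rw [hf.anti i j hij, neg_mul]⟩
  | algebraMap r => exact ⟨algebraMap ℝ A r, algebraMap_mem _ r, by rw [Algebra.commutes]⟩
  | add x y _ _ hx hy =>
    obtain ⟨x', hx', ex⟩ := hx
    obtain ⟨y', hy', ey⟩ := hy
    exact ⟨x' + y', add_mem hx' hy', by rw [mul_add, add_mul, ex, ey]⟩
  | mul x y _ _ hx hy =>
    obtain ⟨x', hx', ex⟩ := hx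
    obtain ⟨y', hy', ey⟩ := hy
    exact ⟨x' * y', mul_mem hx' hy', by rw [← mul_assoc, ex, mul_assoc, ey, mul_assoc]⟩

lemma swapα {f : ι → A} (hf : Rel f) (α : A →ₐ[ℝ] A) (hα : ∀ i, α (f i) = -f i)
    (s : Set ι) (i : ι) (hi : i ∉ s) {c : A}
    (hc : c ∈ adjoin ℝ (f '' s)) : f i * c = α c * f i := by
  induction hc using adjoin_induction with
  | mem x hx =>
    obtain ⟨j, hj, rfl⟩ := hx
    have hij : i ≠ j := by rintro rfl; exact hi hj
    rw [hf.anti i j hij, hα, neg_mul]
  | algebraMap r => rw [AlgHom.commutes, Algebra.commutes]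
  | add x y _ _ ex ey => rw [mul_add, map_add, add_mul, ex, ey]
  | mul x y _ _ ex ey => rw [← mul_assoc, ex, mul_assoc, ey, map_mul, mul_assoc]

lemma decomp {f : ι → A} (hf : Rel f) (s : Set ι) (i : ι) (hi : i ∉ s) {z : A}
    (hz : z ∈ adjoin ℝ (f '' (insert i s))) :
    ∃ a ∈ adjoin ℝ (f '' s), ∃ b ∈ adjoin ℝ (f '' s), z = a + b * f i := by
  induction hz using adjoin_induction with
  | mem x hx =>
    obtain ⟨j, hj, rfl⟩ := hx
    rcases hj with rfl | hj
    · exact ⟨0, zero_mem _, 1, one_mem _, by simp⟩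
    · exact ⟨f j, subset_adjoin ⟨j, hj, rfl⟩, 0, zero_mem _, by simp⟩
  | algebraMap r => exact ⟨algebraMap ℝ A r, algebraMap_mem _ r, 0, zero_mem _, by simp⟩
  | add x y _ _ hx hy =>
    obtain ⟨a, ha, b, hb, rfl⟩ := hx
    obtain ⟨c, hc, d, hd, rfl⟩ := hy
    exact ⟨a + c, add_mem ha hc, b + d, add_mem hb hd, by rw [add_mul]; abel⟩
  | mul x y _ _ hx hy =>
    obtain ⟨a, ha, b, hb, rfl⟩ := hx
    obtain ⟨c, hc, d, hd, rfl⟩ := hy
    obtain ⟨c', hc', ec⟩ := swap hf s i hi hc
    obtain ⟨d', hd', ed⟩ := swap hf s i hi hd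
    refine ⟨a * c - b * d', sub_mem (mul_mem ha hc) (mul_mem hb hd'), a * d + b * c',
      add_mem (mul_mem ha hd) (mul_mem hb hc'), ?_⟩
    have e1 : b * f i * c = b * c' * f i := by rw [mul_assoc, ec, mul_assoc]
    have e2 : b * f i * (d * f i) = -(b * d') := by
      rw [show b * f i * (d * f i) = b * (f i * d) * f i by noncomm_ring, ed,
        show b * (d' * f i) * f i = b * d' * (f i * f i) by noncomm_ring, hf.sq]
      simp
    calc (a + b * f i) * (c + d * f i)
        = a * c + a * (d * f i) + (b * f i * c + b * f i * (d * f i)) := by noncomm_ring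
      _ = a * c - b * d' + (a * d + b * c') * f i := by rw [e1, e2]; noncomm_ring

/-- The algebra generated by finitely many elements with the Clifford relations is contained in a
finite dimensional subspace. -/
lemma fin_sub {f : ι → A} (hf : Rel f) (s : Finset ι) :
    ∃ W : Submodule ℝ A, FiniteDimensional ℝ W ∧ ∀ z ∈ adjoin ℝ (f '' (s : Set ι)), z ∈ W := by
  induction s using Finset.induction_on with
  | empty =>
    refine ⟨Submodule.span ℝ {1}, inferInstance, ?_⟩
    intro z hz
    simp only [Finset.coe_empty, Set.image_empty, adjoin_empty] at hz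
    obtain ⟨r, rfl⟩ := Algebra.mem_bot.1 hz
    rw [Submodule.mem_span_singleton]
    exact ⟨r, by rw [Algebra.algebraMap_eq_smul_one]⟩
  | insert i s hi ih =>
    obtain ⟨W, hW, h⟩ := ih
    refine ⟨W ⊔ W.map (LinearMap.mulRight ℝ (f i)), inferInstance, ?_⟩
    intro z hz
    rw [Finset.coe_insert] at hz
    obtain ⟨a, ha, b, hb, rfl⟩ := decomp hf _ i (by simpa using hi) hz
    exact Submodule.add_mem_sup (h a ha) ⟨b, h b hb, rfl⟩

/-- Twisted centre. -/
lemma central {f : ι → A} (hf : Rel f) (α : A →ₐ[ℝ] A) (hα : ∀ i, α (f i) = -f i)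
    (hαα : ∀ z, α (α z) = z) (ε : ℝ) (hε : ε * ε = 1) {z : A} (h1 : α z = ε • z)
    (h2 : ∀ i, z * f i = ε • (f i * z)) (s : Finset ι) (hz : z ∈ adjoin ℝ (f '' (s : Set ι))) :
    ∃ r : ℝ, z = algebraMap ℝ A r := by
  induction s using Finset.induction_on with
  | empty =>
    simp only [Finset.coe_empty, Set.image_empty, adjoin_empty] at hz
    obtain ⟨r, rfl⟩ := Algebra.mem_bot.1 hz
    exact ⟨r, rfl⟩
  | insert i s hi ih =>
    rw [Finset.coe_insert] at hz
    have hi' : i ∉ (s : Set ι) := by simpa using hi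
    obtain ⟨a, ha, b, hb, rfl⟩ := decomp hf _ i hi' hz
    have ea := swapα hf α hα _ i hi' ha
    have eb := swapα hf α hα _ i hi' hb
    have k2 := h2 i
    have k1 : α (a + b * f i) * f i = ε • ((a + b * f i) * f i) := by rw [h1, smul_mul_assoc]
    rw [k2] at k1
    rw [smul_smul, hε, one_smul, map_add, map_mul, hα, mul_add, ea, ← mul_assoc, eb] at k1
    have e3 : (α a + α b * -f i) * f i = α a * f i + α b := by
      rw [add_mul, mul_assoc, neg_mul, hf.sq]; simp
    have e4 : α a * f i + α b * f i * f i = α a * f i - α b := by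
      rw [mul_assoc (α b), hf.sq]; simp [sub_eq_add_neg]
    rw [e3, e4] at k1
    have e5 : (2 : ℝ) • α b = 0 := by
      rw [two_smul]
      have := congrArg (fun t => t - α a * f i + α b) k1
      have l1 : α a * f i + α b - α a * f i + α b = α b + α b := by abel
      have l2 : α a * f i - α b - α a * f i + α b = 0 := by abel
      rw [l1, l2] at this
      exact this
    have e6 : α b = 0 := by
      rcases smul_eq_zero.1 e5 with h | h
      · norm_num at h
      · exact h
    have e7 : b = 0 := by rw [← hαα b, e6, map_zero]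
    subst e7
    rw [zero_mul, add_zero] at *
    exact ih ha

/-- The product of the generators in a list. -/
def P (f : ι → A) (L : List ι) : A := (L.map f).prod

lemma P_cons (f : ι → A) (i : ι) (L : List ι) : P f (i :: L) = f i * P f L := by simp [P]

lemma P_comm {f : ι → A} (hf : Rel f) (L : List ι) (hL : L.Nodup) (i : ι) :
    P f L * f i = ((-1 : ℝ) ^ L.length * (if i ∈ L then -1 else 1)) • (f i * P f L) := by
  induction L with
  | nil => simp [P]
  | cons j L ih =>
    rw [List.nodup_cons] at hL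
    have ih' := ih hL.2
    rw [P_cons, mul_assoc, ih']
    by_cases hij : i = j
    · subst hij
      have hi : i ∉ L := hL.1
      simp only [hi, if_false, List.mem_cons, true_or, if_true, List.length_cons]
      rw [mul_smul_comm]
      congr 1
      ring
    · have e1 : f j * (f i * P f L) = -(f i * (f j * P f L)) := by
        rw [← mul_assoc, hf.anti j i (Ne.symm hij), neg_mul, mul_assoc]
      rw [mul_smul_comm, e1]
      have e2 : (i ∈ j :: L) ↔ i ∈ L := by simp [hij]
      simp only [e2, List.length_cons, pow_succ]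
      rw [smul_neg, ← neg_smul]
      congr 1
      ring

lemma P_comm' {f : ι → A} (hf : Rel f) (L : List ι) (hL : L.Nodup) (i : ι) :
    f i * P f L = ((-1 : ℝ) ^ L.length * (if i ∈ L then -1 else 1)) • (P f L * f i) := by
  rw [P_comm hf L hL i, smul_smul]
  have : ((-1 : ℝ) ^ L.length * (if i ∈ L then -1 else 1)) *
      ((-1 : ℝ) ^ L.length * (if i ∈ L then -1 else 1)) = 1 := by
    have h1 : ((-1 : ℝ) ^ L.length) * ((-1 : ℝ) ^ L.length) = 1 := by
      rw [← mul_pow]; norm_num
    split_ifs
    · nlinarith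
    · nlinarith
  rw [this, one_smul]

lemma P_sq {f : ι → A} (hf : Rel f) (L : List ι) (hL : L.Nodup) :
    P f L * P f L = algebraMap ℝ A ((-1 : ℝ) ^ ((L.length + 1).choose 2)) := by
  induction L with
  | nil => simp [P]
  | cons j L ih =>
    rw [List.nodup_cons] at hL
    have ih' := ih hL.2
    have h1 := P_comm hf L hL.2 j
    simp only [hL.1, if_false, mul_one] at h1
    calc P f (j :: L) * P f (j :: L) = f j * (P f L * f j) * P f L := by
          rw [P_cons]; noncomm_ring
      _ = ((-1 : ℝ) ^ L.length) • ((f j * f j) * (P f L * P f L)) := by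
          rw [h1, mul_smul_comm, smul_mul_assoc]; congr 1; noncomm_ring
      _ = algebraMap ℝ A ((-1 : ℝ) ^ (((j :: L).length + 1).choose 2)) := by
          rw [hf.sq, ih', Algebra.algebraMap_eq_smul_one, Algebra.algebraMap_eq_smul_one]
          rw [List.length_cons, Nat.choose_succ_succ' (L.length + 1) 1, Nat.choose_one_right, pow_add, pow_succ]
          rw [neg_one_mul, smul_neg, smul_smul, ← neg_smul]
          congr 1
          ring

lemma P_alpha {f : ι → A} (α : A →ₐ[ℝ] A) (hα : ∀ i, α (f i) = -f i) (L : List ι) :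
    α (P f L) = ((-1 : ℝ) ^ L.length) • P f L := by
  induction L with
  | nil => simp [P]
  | cons j L ih =>
    rw [P_cons, map_mul, ih, hα, mul_smul_comm, neg_mul, List.length_cons, pow_succ, smul_neg,
      ← neg_smul]
    congr 1
    ring

/-- An even involution which commutes or anticommutes with every generator anticommutes with a
number of generators divisible by four. -/
theorem card_mod_four [Fintype ι] [Nontrivial A] {f : ι → A} (hf : Rel f)
    (htop : adjoin ℝ (Set.range f) = ⊤)
    (α : A →ₐ[ℝ] A) (hα : ∀ i, α (f i) = -f i)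
    (hαα : ∀ z, α (α z) = z) (g : A) (hg : g * g = 1) (hgα : α g = g) (D : Finset ι)
    (hD : ∀ i, g * f i = (if i ∈ D then (-1 : ℝ) else 1) • (f i * g)) : D.card % 4 = 0 := by
  have hn : D.toList.Nodup := D.nodup_toList
  set L := D.toList with hLdef
  have hlen : L.length = D.card := D.length_toList
  have hmem : ∀ i, i ∈ L ↔ i ∈ D := fun i => by simp [hLdef]
  set k := D.card with hk
  set z := P f L * g with hz
  set ε : ℝ := (-1) ^ k with hεd
  have hε : ε * ε = 1 := by rw [hεd, ← mul_pow]; norm_num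
  have h1 : α z = ε • z := by
    rw [hz, map_mul, P_alpha α hα, hgα, hlen, smul_mul_assoc]
  have h2 : ∀ i, z * f i = ε • (f i * z) := by
    intro i
    rw [hz, mul_assoc, hD i, mul_smul_comm, ← mul_assoc, P_comm hf L hn i, smul_mul_assoc,
      smul_smul, hlen, mul_assoc]
    congr 1
    simp only [hmem]
    split_ifs <;> ring
  have hzt : z ∈ adjoin ℝ (f '' ((Finset.univ : Finset ι) : Set ι)) := by
    rw [Finset.coe_univ, Set.image_univ, htop]; trivial
  obtain ⟨r, hr⟩ := central hf α hα hαα ε hε h1 h2 Finset.univ hzt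
  have hPP := P_sq hf L hn
  have hPg : P f L = r • g := by
    have : P f L * g * g = algebraMap ℝ A r * g := by rw [← hz, hr]
    rw [mul_assoc, hg, mul_one] at this
    rw [this, Algebra.algebraMap_eq_smul_one, smul_mul_assoc, one_mul]
  have hinj : Function.Injective (algebraMap ℝ A) := (algebraMap ℝ A).injective
  have hsq : algebraMap ℝ A (r * r) = algebraMap ℝ A ((-1 : ℝ) ^ ((L.length + 1).choose 2)) := by
    rw [← hPP, hPg, smul_mul_smul_comm, hg, Algebra.algebraMap_eq_smul_one]
  have hrr := hinj hsq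
  rw [hlen] at hrr
  have hpar : k % 2 = 0 := by
    by_contra hodd
    have hodd' : Odd k := by
      rcases Nat.even_or_odd k with h | h
      · exact absurd (Nat.even_iff.1 h) hodd
      · exact h
    have e1 : ε = -1 := by rw [hεd]; exact hodd'.neg_one_pow
    rw [hr, AlgHom.commutes, e1, Algebra.algebraMap_eq_smul_one, smul_smul,
      ← Algebra.algebraMap_eq_smul_one, ← Algebra.algebraMap_eq_smul_one] at h1
    have := hinj h1
    have hr0 : r = 0 := by linarith
    rw [hr0] at hrr
    have : ((-1 : ℝ) ^ ((k + 1).choose 2)) ≠ 0 := pow_ne_zero _ (by norm_num)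
    exact this (by rw [← hrr]; ring)
  by_contra h4
  have hk2 : k % 4 = 2 := by omega
  have hodd : Odd ((k + 1).choose 2) := by
    rw [Nat.choose_two_right]
    obtain ⟨t, ht⟩ : ∃ t, k = 4 * t + 2 := ⟨k / 4, by omega⟩
    rw [ht]
    have : (4 * t + 2 + 1) * (4 * t + 2 + 1 - 1) / 2 = (4 * t + 3) * (2 * t + 1) := by
      rw [show (4 * t + 2 + 1) * (4 * t + 2 + 1 - 1) = (4 * t + 3) * (2 * t + 1) * 2 by
        simp; ring]
      exact Nat.mul_div_cancel _ (by norm_num)
    rw [this]
    exact ⟨(4 * t + 3) * t + (2 * t + 1), by ring⟩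
  rw [hodd.neg_one_pow] at hrr
  nlinarith [mul_self_nonneg r]

/-- A normalised trace. -/
lemma exists_trace [Fintype ι] [Nontrivial A] {f : ι → A} (hf : Rel f)
    (htop : adjoin ℝ (Set.range f) = ⊤) :
    ∃ τ : A →ₗ[ℝ] ℝ, (∀ x y, τ (x * y) = τ (y * x)) ∧ τ 1 = 1 := by
  obtain ⟨W, hW, h⟩ := fin_sub hf (Finset.univ : Finset ι)
  have hWt : W = ⊤ := by
    rw [_root_.eq_top_iff]
    intro z _
    apply h
    rw [Finset.coe_univ, Set.image_univ, htop]; trivial
  subst hWt
  have hfin : FiniteDimensional ℝ A := by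
    exact Module.finite_def.2 (Module.Finite.iff_fg.1 hW)
  have hd : (Module.finrank ℝ A : ℝ) ≠ 0 := by
    have := Module.finrank_pos (R := ℝ) (M := A)
    positivity
  refine ⟨(Module.finrank ℝ A : ℝ)⁻¹ • (LinearMap.trace ℝ A).comp (LinearMap.mul ℝ A), ?_, ?_⟩
  · intro x y
    simp only [LinearMap.smul_apply, LinearMap.comp_apply]
    congr 1
    have e1 : ∀ x y : A, LinearMap.mul ℝ A (x * y) = LinearMap.mul ℝ A x * LinearMap.mul ℝ A y := by
      intro x y; ext z; simp [mul_assoc]
    rw [e1, e1, LinearMap.trace_mul_comm]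
  · simp only [LinearMap.smul_apply, LinearMap.comp_apply]
    have e2 : LinearMap.mul ℝ A 1 = LinearMap.id := by ext z; simp
    rw [e2, LinearMap.trace_id]
    simp [hd]

end Abstract

end Q122.SR
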