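import Pool.Agent.Q122.SR.Pairs

/-! The compact spinor group and its elements in normal form. -/

namespace Q122.SR

open Algebra

noncomputable section

/-- The quadratic form `Q_n(v) = -|v|^2` on Euclidean space `ℝ^n`. -/
def negForm (n : ℕ) : QuadraticForm ℝ (EuclideanSpace ℝ (Fin n)) :=
  LinearMap.BilinMap.toQuadraticMap (-(innerₗ (EuclideanSpace ℝ (Fin n))))

/-- The algebra `C_n`: the Clifford algebra of `-|v|^2`, in which `e_i ^ 2 = -1`. -/
abbrev Cl (n : ℕ) : Type := CliffordAlgebra (negForm n)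

/-- A vector of `ℝ^n` as an element of `C_n`. -/
def vec {n : ℕ} (v : EuclideanSpace ℝ (Fin n)) : Cl n := CliffordAlgebra.ι (negForm n) v

/-- The generator `e_i` of `C_n` (indices start at `0`). -/
def e {n : ℕ} (i : Fin n) : Cl n := vec (EuclideanSpace.single i 1)

/-- `Spin(n)`: the subgroup of the units of `C_n` generated by the products of two unit vectors,
that is, the group of all products of an even number of unit vectors. -/
def Spin (n : ℕ) : Subgroup (Cl n)ˣ :=
  Subgroup.closure {u | ∃ v w : EuclideanSpace ℝ (Fin n), ‖v‖ = 1 ∧ ‖w‖ = 1 ∧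
    (u : Cl n) = vec v * vec w}

/-- The first index of the `j`-th plane. -/
def ia {n : ℕ} (j : Fin (n / 2)) : Fin n := ⟨2 * j, by omega⟩

/-- The second index of the `j`-th plane. -/
def ib {n : ℕ} (j : Fin (n / 2)) : Fin n := ⟨2 * j + 1, by omega⟩

/-- `(λ_1 + μ_1 e_1 e_2) (λ_2 + μ_2 e_3 e_4) ⋯ (λ_m + μ_m e_{2m-1} e_{2m})`, `m = ⌊n/2⌋`
(indices from `0` in Lean). -/
def normalForm {n : ℕ} (l μ : Fin (n / 2) → ℝ) : Cl n :=
  ((List.finRange (n / 2)).map fun j => algebraMap ℝ (Cl n) (l j) + μ j • (e (ia j) * e (ib j))).prod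

/-- An element of a group is strongly reversible if an element `g` with `g ^ 2 = 1` conjugates it to
its inverse. -/
def StronglyReversible {G : Type*} [Group G] (x : G) : Prop :=
  ∃ g : G, g ^ 2 = 1 ∧ g * x * g⁻¹ = x⁻¹

end

lemma negForm_apply {n : ℕ} (v : EuclideanSpace ℝ (Fin n)) : negForm n v = -(inner ℝ v v) := by
  simp [negForm]

lemma vec_sq {n : ℕ} (v : EuclideanSpace ℝ (Fin n)) :
    vec v * vec v = algebraMap ℝ (Cl n) (-(inner ℝ v v)) := by
  rw [vec, CliffordAlgebra.ι_sq_scalar, negForm_apply]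

lemma vec_swap {n : ℕ} (v w : EuclideanSpace ℝ (Fin n)) :
    vec v * vec w + vec w * vec v = algebraMap ℝ (Cl n) (-(2 * inner ℝ v w)) := by
  rw [vec, vec, CliffordAlgebra.ι_mul_ι_add_swap]
  congr 1
  rw [QuadraticMap.polar, negForm_apply, negForm_apply, negForm_apply, inner_add_left,
    inner_add_right, inner_add_right, real_inner_comm v w]
  ring

lemma vec_add {n : ℕ} (v w : EuclideanSpace ℝ (Fin n)) : vec (v + w) = vec v + vec w := by
  simp [vec]

lemma vec_smul {n : ℕ} (r : ℝ) (v : EuclideanSpace ℝ (Fin n)) : vec (r • v) = r • vec v := by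
  simp [vec]

lemma vec_neg {n : ℕ} (v : EuclideanSpace ℝ (Fin n)) : vec (-v) = -vec v := by
  simp [vec]

instance (n : ℕ) : Nontrivial (Cl n) := by
  have : Invertible (2 : ℝ) := invertibleOfNonzero (by norm_num)
  infer_instance

lemma vec_inj {n : ℕ} {v w : EuclideanSpace ℝ (Fin n)} (h : vec v = vec w) : v = w := by
  have h0 : vec (v - w) = 0 := by
    rw [sub_eq_add_neg, vec_add, vec_neg, h]; simp
  have h1 := vec_sq (v - w)
  rw [h0, zero_mul, ← map_zero (algebraMap ℝ (Cl n))] at h1
  have h2 := (algebraMap ℝ (Cl n)).injective h1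
  have h3 : inner ℝ (v - w) (v - w) = 0 := by linarith
  exact sub_eq_zero.1 (inner_self_eq_zero.1 h3)

lemma single_inner {n : ℕ} (i j : Fin n) :
    inner ℝ (EuclideanSpace.single i (1 : ℝ)) (EuclideanSpace.single j (1 : ℝ))
      = if i = j then 1 else 0 := by
  simp [EuclideanSpace.inner_single_left, Pi.single_apply, eq_comm]

lemma rel_onb {n : ℕ} {κ : Type*} [Fintype κ]
    (b : OrthonormalBasis κ ℝ (EuclideanSpace ℝ (Fin n))) : Rel (fun i => vec (b i)) := by
  constructor
  · intro i
    rw [vec_sq, real_inner_self_eq_norm_sq, b.orthonormal.1 i]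
    simp
  · intro i j hij
    have h := vec_swap (b i) (b j)
    rw [b.orthonormal.2 hij] at h
    rw [eq_neg_iff_add_eq_zero, h]
    simp

lemma adjoin_onb {n : ℕ} {κ : Type*} [Fintype κ]
    (b : OrthonormalBasis κ ℝ (EuclideanSpace ℝ (Fin n))) :
    adjoin ℝ (Set.range (fun i => vec (b i))) = ⊤ := by
  rw [_root_.eq_top_iff, ← CliffordAlgebra.adjoin_range_ι (Q := negForm n)]
  apply adjoin_le
  rintro _ ⟨v, rfl⟩
  have hv : v = ∑ i, b.repr v i • b i := (b.sum_repr v).symm
  rw [hv, map_sum]
  apply sum_mem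
  intro i _
  rw [map_smul]
  exact Subalgebra.smul_mem _ (subset_adjoin (Set.mem_range_self (f := fun i => vec (b i)) i)) _

lemma e_eq {n : ℕ} : (fun i : Fin n => (e i : Cl n)) =
    fun i => vec ((EuclideanSpace.basisFun (Fin n) ℝ) i) := by
  funext i
  simp [e, EuclideanSpace.basisFun_apply]

lemma rel_e (n : ℕ) : Rel (fun i : Fin n => (e i : Cl n)) := by
  rw [e_eq]; exact rel_onb _

lemma adjoin_e (n : ℕ) : adjoin ℝ (Set.range (fun i : Fin n => (e i : Cl n))) = ⊤ := by
  rw [e_eq]; exact adjoin_onb _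

lemma dis (n : ℕ) : Dis (ia (n := n)) ib := by
  constructor
  · intro j k h h'
    apply h
    have := congrArg Fin.val h'
    simp only [ia] at this
    exact Fin.ext (by omega)
  · intro j k h h'
    apply h
    have := congrArg Fin.val h'
    simp only [ib] at this
    exact Fin.ext (by omega)
  · intro j k h'
    have := congrArg Fin.val h'
    simp only [ia, ib] at this
    omega

lemma normalForm_eq {n : ℕ} (l μ : Fin (n / 2) → ℝ) :
    normalForm l μ = N (fun i : Fin n => (e i : Cl n)) ia ib l μ (List.finRange (n / 2)) := rfl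

/-- A unit vector as a unit of the Clifford algebra. -/
noncomputable def uv {n : ℕ} (v : EuclideanSpace ℝ (Fin n)) (hv : ‖v‖ = 1) : (Cl n)ˣ where
  val := vec v
  inv := -vec v
  val_inv := by
    rw [mul_neg, vec_sq, real_inner_self_eq_norm_sq, hv]; simp
  inv_val := by
    rw [neg_mul, vec_sq, real_inner_self_eq_norm_sq, hv]; simp

lemma list_mem_spin {n : ℕ} : ∀ (k : ℕ) (L : List (Fin n)), L.length = 2 * k →
    (L.map (fun i => uv (EuclideanSpace.single i (1 : ℝ)) (by simp))).prod ∈ Spin n := by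
  intro k
  induction k with
  | zero =>
    intro L hL
    have : L = [] := List.length_eq_zero_iff.1 (by omega)
    subst this
    simp only [List.map_nil, List.prod_nil]
    exact one_mem _
  | succ k ih =>
    intro L hL
    match L, hL with
    | [], h => simp at h
    | [a], h => simp at h; omega
    | a :: b :: L, h =>
      rw [List.map_cons, List.map_cons, List.prod_cons, List.prod_cons, ← mul_assoc]
      apply mul_mem _ (ih L (by simp at h; omega))
      apply Subgroup.subset_closure
      exact ⟨EuclideanSpace.single a 1, EuclideanSpace.single b 1, by simp, by simp, rfl⟩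

lemma coe_list {n : ℕ} (L : List (Fin n)) :
    (((L.map (fun i => uv (EuclideanSpace.single i (1 : ℝ)) (by simp))).prod : (Cl n)ˣ) : Cl n)
      = P (fun i : Fin n => (e i : Cl n)) L := by
  induction L with
  | nil => simp [P]
  | cons a L ih =>
    rw [List.map_cons, List.prod_cons, P_cons, Units.val_mul, ih]
    rfl

/-- Every element of `Spin(n)` acts on vectors by an isometry, is even, and commutes with everything
that anticommutes with vectors. -/
lemma spin_act {n : ℕ} (g : (Cl n)ˣ) (hg : g ∈ Spin n) :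
    (∃ T : EuclideanSpace ℝ (Fin n) ≃ₗᵢ[ℝ] EuclideanSpace ℝ (Fin n),
      ∀ v, (g : Cl n) * vec v = vec (T v) * g) ∧
    CliffordAlgebra.involute (g : Cl n) = g ∧
    (∀ z : Cl n, (∀ v, z * vec v = -(vec v * z)) → z * g = g * z) := by
  induction hg using Subgroup.closure_induction with
  | mem x hx =>
    obtain ⟨v, w, hv, hw, hx⟩ := hx
    have hP : ∀ (a : EuclideanSpace ℝ (Fin n)), ‖a‖ = 1 → ∀ b,
        vec a * vec b = vec ((ℝ ∙ a).reflection b) * vec a := by
      intro a ha b
      have e0 : (ℝ ∙ a).reflection b = (2 * inner ℝ a b) • a - b := by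
        rw [Submodule.reflection_singleton_apply, ha, ← Nat.cast_smul_eq_nsmul ℝ, smul_smul]
        simp
      have h1 := vec_swap a b
      have h2 : vec a * vec a = algebraMap ℝ (Cl n) (-1) := by
        rw [vec_sq, real_inner_self_eq_norm_sq, ha]; norm_num
      rw [e0, sub_eq_add_neg, vec_add, vec_neg, vec_smul, ← sub_eq_add_neg, sub_mul,
        smul_mul_assoc, h2, eq_sub_iff_add_eq, h1, Algebra.algebraMap_eq_smul_one,
        Algebra.algebraMap_eq_smul_one, smul_smul]
      congr 1
      ring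
    refine ⟨⟨((ℝ ∙ w).reflection).trans ((ℝ ∙ v).reflection), ?_⟩, ?_, ?_⟩
    · intro a
      rw [hx, mul_assoc, hP w hw, ← mul_assoc, hP v hv, mul_assoc]
      rfl
    · rw [hx, map_mul, vec, vec, CliffordAlgebra.involute_ι, CliffordAlgebra.involute_ι]
      noncomm_ring
    · intro z hz
      rw [hx, ← mul_assoc, hz, neg_mul, mul_assoc, hz, mul_neg, neg_neg, mul_assoc]
  | one =>
    refine ⟨⟨LinearIsometryEquiv.refl ℝ _, ?_⟩, ?_, ?_⟩
    · intro v; simp
    · simp
    · intro z _; simp
  | mul x y _ _ hx hy =>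
    obtain ⟨⟨T, hT⟩, h1, h2⟩ := hx
    obtain ⟨⟨S, hS⟩, h3, h4⟩ := hy
    refine ⟨⟨S.trans T, ?_⟩, ?_, ?_⟩
    · intro v
      rw [Units.val_mul, mul_assoc, hS, ← mul_assoc, hT, mul_assoc]
      rfl
    · rw [Units.val_mul, map_mul, h1, h3]
    · intro z hz
      rw [Units.val_mul, ← mul_assoc, h2 z hz, mul_assoc, h4 z hz, mul_assoc]
  | inv x _ hx =>
    obtain ⟨⟨T, hT⟩, h1, h2⟩ := hx
    refine ⟨⟨T.symm, ?_⟩, ?_, ?_⟩
    · intro v
      have h := hT (T.symm v)
      rw [LinearIsometryEquiv.apply_symm_apply] at h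
      rw [Units.inv_mul_eq_iff_eq_mul, ← mul_assoc, h, mul_assoc, Units.mul_inv, mul_one]
    · have h5 : CliffordAlgebra.involute ((x⁻¹ : (Cl n)ˣ) : Cl n) * (x : Cl n) = 1 := by
        conv_lhs => rw [← h1]
        rw [← map_mul, Units.inv_mul, map_one]
      exact Units.eq_inv_of_mul_eq_one_right h5
    · intro z hz
      have h6 := h2 z hz
      rw [Units.mul_inv_eq_iff_eq_mul, mul_assoc, h6, ← mul_assoc, Units.inv_mul, one_mul]

end Q122.SR
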