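import Pool.Agent.Q122.SR.Suff2

/-! Necessity. -/

namespace Q122.SR

open Algebra

lemma abs_inner_le {n : ℕ} (T : EuclideanSpace ℝ (Fin n) ≃ₗᵢ[ℝ] EuclideanSpace ℝ (Fin n))
    (i : Fin n) : |inner ℝ (EuclideanSpace.single i (1 : ℝ)) (T (EuclideanSpace.single i 1))| ≤ 1 := by
  have h := abs_real_inner_le_norm (EuclideanSpace.single i (1 : ℝ))
    (T (EuclideanSpace.single i 1))
  rw [LinearIsometryEquiv.norm_map] at h
  simpa using h

/-- The trace of an involution in `Spin(n)` on vectors is `n - 2k` with `4 ∣ k`. -/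
lemma trace_lemma {n : ℕ} (g : (Cl n)ˣ) (hgα : CliffordAlgebra.involute (g : Cl n) = g)
    (T : EuclideanSpace ℝ (Fin n) ≃ₗᵢ[ℝ] EuclideanSpace ℝ (Fin n))
    (hT : ∀ v, (g : Cl n) * vec v = vec (T v) * g) (hg : (g : Cl n) * g = 1) :
    ∃ k : ℕ, k % 4 = 0 ∧ ∑ i : Fin n, inner ℝ (EuclideanSpace.single i (1 : ℝ))
      (T (EuclideanSpace.single i 1)) = (n : ℝ) - 2 * k := by
  have hTT : ∀ v, T (T v) = v := by
    intro v
    apply vec_inj
    have h1 : (g : Cl n) * ((g : Cl n) * vec v) = vec (T (T v)) * ((g : Cl n) * g) := by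
      rw [hT, ← mul_assoc, hT, mul_assoc]
    rw [← mul_assoc, hg, one_mul, mul_one] at h1
    exact h1.symm
  set TL : EuclideanSpace ℝ (Fin n) →ₗ[ℝ] EuclideanSpace ℝ (Fin n) := T.toLinearEquiv.toLinearMap
    with hTL
  have hTLa : ∀ v, TL v = T v := fun v => rfl
  have hsym : TL.IsSymmetric := by
    intro v w
    rw [hTLa, hTLa]
    conv_lhs => rw [← hTT w]
    exact T.inner_map_map v (T w)
  have hn : Module.finrank ℝ (EuclideanSpace ℝ (Fin n)) = n := by simp
  set b := hsym.eigenvectorBasis hn with hb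
  set σ := hsym.eigenvalues hn with hσ
  have hbσ : ∀ i, T (b i) = σ i • b i := by
    intro i
    have := hsym.apply_eigenvectorBasis hn i
    rw [hTLa] at this
    exact this
  have hσ2 : ∀ i, σ i = 1 ∨ σ i = -1 := by
    intro i
    have h1 := hTT (b i)
    rw [hbσ, map_smul, hbσ, smul_smul] at h1
    have h2 : b i ≠ 0 := by
      intro h0
      have := b.orthonormal.1 i
      rw [h0, _root_.norm_zero] at this
      norm_num at this
    have h3 : (σ i * σ i - 1) • b i = 0 := by rw [sub_smul, h1, one_smul, sub_self]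
    rcases smul_eq_zero.1 h3 with h | h
    · have : (σ i - 1) * (σ i + 1) = 0 := by linarith
      rcases mul_eq_zero.1 this with h | h
      · left; linarith
      · right; linarith
    · exact absurd h h2
  classical
  set D : Finset (Fin n) := Finset.univ.filter (fun i => σ i = -1) with hD
  have hmem : ∀ i, i ∈ D ↔ σ i = -1 := fun i => by simp [hD]
  have hDf : ∀ i, (g : Cl n) * (fun i => vec (b i)) i =
      (if i ∈ D then (-1 : ℝ) else 1) • ((fun i => vec (b i)) i * (g : Cl n)) := by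
    intro i
    simp only [hmem]
    rw [hT, hbσ, vec_smul, smul_mul_assoc]
    rcases hσ2 i with h | h
    · rw [h]; norm_num
    · rw [h]; simp
  have hcard := card_mod_four (rel_onb b) (adjoin_onb b) (CliffordAlgebra.involute)
    (fun i => CliffordAlgebra.involute_ι _) CliffordAlgebra.involute_involute (g : Cl n) hg hgα D hDf
  refine ⟨D.card, hcard, ?_⟩
  have h1 := TL.trace_eq_sum_inner (EuclideanSpace.basisFun (Fin n) ℝ)
  have h2 := hsym.trace_eq_sum_eigenvalues hn
  have h3 : ∑ i : Fin n, inner ℝ (EuclideanSpace.single i (1 : ℝ)) (T (EuclideanSpace.single i 1))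
      = ∑ i, σ i := by
    have h4 : ∑ i, inner ℝ ((EuclideanSpace.basisFun (Fin n) ℝ) i)
        (TL ((EuclideanSpace.basisFun (Fin n) ℝ) i)) = ∑ i, σ i := by
      rw [← h1, h2]; rfl
    rw [← h4]
    apply Finset.sum_congr rfl
    intro i _
    simp [EuclideanSpace.basisFun_apply, hTLa]
  rw [h3]
  have h5 : ∀ i, σ i = 1 - 2 * (if i ∈ D then (1 : ℝ) else 0) := by
    intro i
    simp only [hmem]
    rcases hσ2 i with h | h
    · rw [h]; norm_num
    · rw [h]; norm_num
  rw [Finset.sum_congr rfl (fun i _ => h5 i), Finset.sum_sub_distrib, ← Finset.mul_sum,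
    Finset.sum_ite_mem]
  simp

/-- `F_j e_a = (c e_a + s e_b) F_j`. -/
lemma F_ea {n : ℕ} (l μ : Fin (n / 2) → ℝ) (j : Fin (n / 2)) (h : l j ^ 2 + μ j ^ 2 = 1) :
    F (fun i : Fin n => (e i : Cl n)) ia ib l μ j * e (ia j) =
      ((l j ^ 2 - μ j ^ 2) • e (ia j) + (2 * l j * μ j) • e (ib j)) *
        F (fun i : Fin n => (e i : Cl n)) ia ib l μ j := by
  have haa : (e (ia j) : Cl n) * e (ia j) = -1 := (rel_e n).sq (ia j)
  have hbb : (e (ib j) : Cl n) * e (ib j) = -1 := (rel_e n).sq (ib j)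
  have hba : (e (ib j) : Cl n) * e (ia j) = -(e (ia j) * e (ib j)) :=
    (rel_e n).anti (ib j) (ia j) ((dis n).uv j j).symm
  set a : Cl n := e (ia j)
  set b : Cl n := e (ib j)
  have k1 : a * b * a = b := by
    rw [mul_assoc, hba, mul_neg, ← mul_assoc, haa]; simp
  have k2 : a * (a * b) = -b := by rw [← mul_assoc, haa]; simp
  have k3 : b * (a * b) = a := by
    rw [← mul_assoc, hba, neg_mul, mul_assoc, hbb]; simp
  have hF : F (fun i : Fin n => (e i : Cl n)) ia ib l μ j = (l j) • (1 : Cl n) + (μ j) • (a * b) := by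
    rw [F, Algebra.algebraMap_eq_smul_one]
  rw [hF]
  simp only [add_mul, mul_add, smul_mul_assoc, mul_smul_comm, one_mul, mul_one, k1, k2, k3, smul_neg,
    smul_smul]
  linear_combination (norm := module) (-(l j) * h) • a + (-(μ j) * h) • b

/-- `F_j e_b = (c e_b - s e_a) F_j`. -/
lemma F_eb {n : ℕ} (l μ : Fin (n / 2) → ℝ) (j : Fin (n / 2)) (h : l j ^ 2 + μ j ^ 2 = 1) :
    F (fun i : Fin n => (e i : Cl n)) ia ib l μ j * e (ib j) =
      ((l j ^ 2 - μ j ^ 2) • e (ib j) + (-(2 * l j * μ j)) • e (ia j)) *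
        F (fun i : Fin n => (e i : Cl n)) ia ib l μ j := by
  have haa : (e (ia j) : Cl n) * e (ia j) = -1 := (rel_e n).sq (ia j)
  have hbb : (e (ib j) : Cl n) * e (ib j) = -1 := (rel_e n).sq (ib j)
  have hba : (e (ib j) : Cl n) * e (ia j) = -(e (ia j) * e (ib j)) :=
    (rel_e n).anti (ib j) (ia j) ((dis n).uv j j).symm
  set a : Cl n := e (ia j)
  set b : Cl n := e (ib j)
  have k1 : a * b * b = -a := by
    rw [mul_assoc, hbb]; simp
  have k2 : a * (a * b) = -b := by rw [← mul_assoc, haa]; simp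
  have k3 : b * (a * b) = a := by
    rw [← mul_assoc, hba, neg_mul, mul_assoc, hbb]; simp
  have hF : F (fun i : Fin n => (e i : Cl n)) ia ib l μ j = (l j) • (1 : Cl n) + (μ j) • (a * b) := by
    rw [F, Algebra.algebraMap_eq_smul_one]
  rw [hF]
  simp only [add_mul, mul_add, smul_mul_assoc, mul_smul_comm, one_mul, mul_one, k1, k2, k3, smul_neg,
    smul_smul]
  linear_combination (norm := module) (-(l j) * h) • b + ((μ j) * h) • a

lemma N_move {n : ℕ} (l μ : Fin (n / 2) → ℝ) (j : Fin (n / 2)) (w w' : Cl n)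
    (hF : F (fun i : Fin n => (e i : Cl n)) ia ib l μ j * w =
      w' * F (fun i : Fin n => (e i : Cl n)) ia ib l μ j)
    (hw : ∀ k, k ≠ j → F (fun i : Fin n => (e i : Cl n)) ia ib l μ k * w =
      w * F (fun i : Fin n => (e i : Cl n)) ia ib l μ k)
    (hw' : ∀ k, k ≠ j → F (fun i : Fin n => (e i : Cl n)) ia ib l μ k * w' =
      w' * F (fun i : Fin n => (e i : Cl n)) ia ib l μ k)
    (L : List (Fin (n / 2))) (hL : L.Nodup) :
    (j ∉ L → N (fun i : Fin n => (e i : Cl n)) ia ib l μ L * w =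
      w * N (fun i : Fin n => (e i : Cl n)) ia ib l μ L) ∧
    (j ∈ L → N (fun i : Fin n => (e i : Cl n)) ia ib l μ L * w =
      w' * N (fun i : Fin n => (e i : Cl n)) ia ib l μ L) := by
  induction L with
  | nil => simp [N]
  | cons k L ih =>
    rw [List.nodup_cons] at hL
    obtain ⟨ih1, ih2⟩ := ih hL.2
    constructor
    · intro hj
      rw [List.mem_cons, not_or] at hj
      rw [N_cons, mul_assoc, ih1 hj.2, ← mul_assoc, hw k (Ne.symm hj.1), mul_assoc]
    · intro hj
      by_cases hk : k = j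
      · subst hk
        rw [N_cons, mul_assoc, ih1 hL.1, ← mul_assoc, hF, mul_assoc]
      · have hj' : j ∈ L := by
          rcases List.mem_cons.1 hj with h | h
          · exact absurd h.symm hk
          · exact h
        rw [N_cons, mul_assoc, ih2 hj', ← mul_assoc, hw' k hk, mul_assoc]

lemma F_comm_e {n : ℕ} (l μ : Fin (n / 2) → ℝ) (k : Fin (n / 2)) (i : Fin n) (h1 : i ≠ ia k)
    (h2 : i ≠ ib k) : F (fun i : Fin n => (e i : Cl n)) ia ib l μ k * e i =
      e i * F (fun i : Fin n => (e i : Cl n)) ia ib l μ k := by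
  have := f_p (rel_e n) i k h1 h2
  rw [F_eq, add_mul, mul_add, Algebra.commutes, smul_mul_assoc, mul_smul_comm]
  congr 2
  exact this.symm

lemma nf_ea {n : ℕ} (l μ : Fin (n / 2) → ℝ) (h : ∀ j, l j ^ 2 + μ j ^ 2 = 1) (j : Fin (n / 2)) :
    normalForm l μ * e (ia j) =
      ((l j ^ 2 - μ j ^ 2) • e (ia j) + (2 * l j * μ j) • e (ib j)) * normalForm l μ := by
  have hd := dis n
  refine (N_move l μ j _ _ (F_ea l μ j (h j)) ?_ ?_ (List.finRange (n / 2))
    (List.nodup_finRange _)).2 (List.mem_finRange j)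
  · intro k hk
    exact F_comm_e l μ k _ (hd.uu j k (Ne.symm hk)) (hd.uv j k)
  · intro k hk
    rw [mul_add, add_mul, mul_smul_comm, mul_smul_comm, smul_mul_assoc, smul_mul_assoc,
      F_comm_e l μ k _ (hd.uu j k (Ne.symm hk)) (hd.uv j k),
      F_comm_e l μ k _ (hd.uv k j).symm (hd.vv j k (Ne.symm hk))]

lemma nf_eb {n : ℕ} (l μ : Fin (n / 2) → ℝ) (h : ∀ j, l j ^ 2 + μ j ^ 2 = 1) (j : Fin (n / 2)) :
    normalForm l μ * e (ib j) =
      ((l j ^ 2 - μ j ^ 2) • e (ib j) + (-(2 * l j * μ j)) • e (ia j)) * normalForm l μ := by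
  have hd := dis n
  refine (N_move l μ j _ _ (F_eb l μ j (h j)) ?_ ?_ (List.finRange (n / 2))
    (List.nodup_finRange _)).2 (List.mem_finRange j)
  · intro k hk
    exact F_comm_e l μ k _ (hd.uv k j).symm (hd.vv j k (Ne.symm hk))
  · intro k hk
    rw [mul_add, add_mul, mul_smul_comm, mul_smul_comm, smul_mul_assoc, smul_mul_assoc,
      F_comm_e l μ k _ (hd.uu j k (Ne.symm hk)) (hd.uv j k),
      F_comm_e l μ k _ (hd.uv k j).symm (hd.vv j k (Ne.symm hk))]

/-- The diagonal entries of a generic plane cancel. -/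
lemma pair_zero {n : ℕ} (l μ : Fin (n / 2) → ℝ) (h : ∀ j, l j ^ 2 + μ j ^ 2 = 1)
    (x g : (Cl n)ˣ) (hx : (x : Cl n) = normalForm l μ) (hgx : g * x = x⁻¹ * g)
    (T X : EuclideanSpace ℝ (Fin n) ≃ₗᵢ[ℝ] EuclideanSpace ℝ (Fin n))
    (hT : ∀ v, (g : Cl n) * vec v = vec (T v) * g) (hX : ∀ v, (x : Cl n) * vec v = vec (X v) * x)
    (j : Fin (n / 2)) (hl : l j ≠ 0) (hμ : μ j ≠ 0) :
    inner ℝ (EuclideanSpace.single (ia j) (1 : ℝ)) (T (EuclideanSpace.single (ia j) 1)) +
      inner ℝ (EuclideanSpace.single (ib j) (1 : ℝ)) (T (EuclideanSpace.single (ib j) 1)) = 0 := by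
  set A : EuclideanSpace ℝ (Fin n) := EuclideanSpace.single (ia j) 1 with hA
  set B : EuclideanSpace ℝ (Fin n) := EuclideanSpace.single (ib j) 1 with hB
  set c := l j ^ 2 - μ j ^ 2 with hc
  set s := 2 * l j * μ j with hs
  have hxgx : x * (g * x) = g := by rw [hgx, mul_inv_cancel_left]
  have hXA : X A = c • A + s • B := by
    apply vec_inj
    have h1 := hX A
    have h2 := nf_ea l μ h j
    rw [← hx] at h2
    have h3 : vec (X A) * (x : Cl n) = vec (c • A + s • B) * x := by
      rw [← h1, vec_add, vec_smul, vec_smul]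
      exact h2
    exact (Units.mul_left_inj x).1 h3
  have hXB : X B = c • B + (-s) • A := by
    apply vec_inj
    have h1 := hX B
    have h2 := nf_eb l μ h j
    rw [← hx] at h2
    have h3 : vec (X B) * (x : Cl n) = vec (c • B + (-s) • A) * x := by
      rw [← h1, vec_add, vec_smul, vec_smul]
      exact h2
    exact (Units.mul_left_inj x).1 h3
  have hXTX : ∀ v, X (T (X v)) = T v := by
    intro v
    apply vec_inj
    have e1 : (x : Cl n) * ((g : Cl n) * ((x : Cl n) * vec v)) =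
        vec (X (T (X v))) * ((x * (g * x) : (Cl n)ˣ) : Cl n) := by
      rw [hX, ← mul_assoc (g : Cl n), hT, ← mul_assoc (x : Cl n), ← mul_assoc (x : Cl n), hX]
      simp only [Units.val_mul, mul_assoc]
    have e2 : (x : Cl n) * ((g : Cl n) * ((x : Cl n) * vec v)) =
        ((x * (g * x) : (Cl n)ˣ) : Cl n) * vec v := by
      simp only [Units.val_mul, mul_assoc]
    rw [e2, hxgx, hT] at e1
    exact ((Units.mul_left_inj g).1 e1).symm
  have k1 : inner ℝ B (T (X A)) = inner ℝ (X B) (T A) := by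
    rw [← X.inner_map_map B (T (X A)), hXTX]
  rw [hXA, hXB, map_add, map_smul, map_smul, inner_add_right, inner_add_left,
    real_inner_smul_right, real_inner_smul_right, real_inner_smul_left, real_inner_smul_left] at k1
  have k2 : s * (inner ℝ A (T A) + inner ℝ B (T B)) = 0 := by linarith
  rcases mul_eq_zero.1 k2 with h0 | h0
  · exfalso
    rw [hs] at h0
    have : 2 * l j * μ j ≠ 0 := mul_ne_zero (mul_ne_zero two_ne_zero hl) hμ
    exact this h0
  · exact h0

/-- Elements commuting with `g`. -/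
lemma trace_conj {n : ℕ} (τ : Cl n →ₗ[ℝ] ℝ) (hτ : ∀ x y, τ (x * y) = τ (y * x))
    (x g : (Cl n)ˣ) (hgx : g * x = x⁻¹ * g) (q : Cl n) (hq : q * g = g * q) :
    τ (q * x) = τ (q * (x⁻¹ : (Cl n)ˣ)) := by
  have h1 : x⁻¹ = g * x * g⁻¹ := by rw [hgx, mul_inv_cancel_right]
  have h2 : q * ((x⁻¹ : (Cl n)ˣ) : Cl n) = (g * (q * x)) * ((g⁻¹ : (Cl n)ˣ) : Cl n) := by
    rw [h1, Units.val_mul, Units.val_mul]
    simp only [← mul_assoc, hq]
  rw [h2, hτ ((g : Cl n) * (q * (x : Cl n))), Units.inv_mul_cancel_left]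

/-- The plane with `λ = 0`. -/
lemma pair_lt {n : ℕ} (l μ : Fin (n / 2) → ℝ) (h : ∀ j, l j ^ 2 + μ j ^ 2 = 1)
    (x g : (Cl n)ˣ) (hx : (x : Cl n) = normalForm l μ) (hgx : g * x = x⁻¹ * g)
    (T : EuclideanSpace ℝ (Fin n) ≃ₗᵢ[ℝ] EuclideanSpace ℝ (Fin n))
    (hT : ∀ v, (g : Cl n) * vec v = vec (T v) * g)
    (j : Fin (n / 2)) (hl : ∀ k, k ≠ j → l k ≠ 0) (hlj : l j = 0) :
    |inner ℝ (EuclideanSpace.single (ia j) (1 : ℝ)) (T (EuclideanSpace.single (ia j) 1)) +
      inner ℝ (EuclideanSpace.single (ib j) (1 : ℝ)) (T (EuclideanSpace.single (ib j) 1))| < 2 := by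
  by_contra hcon
  rw [not_lt] at hcon
  have ha := abs_inner_le T (ia j)
  have hb := abs_inner_le T (ib j)
  have hfix : ∀ (i : Fin n) (ε : ℝ), ε * ε = 1 →
      inner ℝ (EuclideanSpace.single i (1 : ℝ)) (T (EuclideanSpace.single i 1)) = ε →
      T (EuclideanSpace.single i 1) = ε • (EuclideanSpace.single i (1 : ℝ)) := by
    intro i ε hε hi
    have h0 : inner ℝ (T (EuclideanSpace.single i 1) - ε • (EuclideanSpace.single i (1 : ℝ)))
        (T (EuclideanSpace.single i 1) - ε • (EuclideanSpace.single i (1 : ℝ))) = (0 : ℝ) := by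
      simp only [inner_sub_left, inner_sub_right, real_inner_smul_left, real_inner_smul_right,
        LinearIsometryEquiv.inner_map_map]
      rw [real_inner_comm (EuclideanSpace.single i (1 : ℝ)) (T (EuclideanSpace.single i 1)), hi,
        single_inner, if_pos rfl]
      linarith
    exact sub_eq_zero.1 (inner_self_eq_zero.1 h0)
  have key : ∃ ε : ℝ, ε * ε = 1 ∧
      inner ℝ (EuclideanSpace.single (ia j) (1 : ℝ)) (T (EuclideanSpace.single (ia j) 1)) = ε ∧
      inner ℝ (EuclideanSpace.single (ib j) (1 : ℝ)) (T (EuclideanSpace.single (ib j) 1)) = ε := by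
    rw [abs_le] at ha hb
    rcases le_abs.1 hcon with h1 | h1
    · exact ⟨1, by norm_num, by linarith, by linarith⟩
    · exact ⟨-1, by norm_num, by linarith, by linarith⟩
  obtain ⟨ε, hε, h1, h2⟩ := key
  have t1 := hfix _ ε hε h1
  have t2 := hfix _ ε hε h2
  set f : Fin n → Cl n := fun i => e i with hf
  have g1 : (g : Cl n) * f (ia j) = ε • (f (ia j) * g) := by
    have := hT (EuclideanSpace.single (ia j) 1)
    rw [t1, vec_smul, smul_mul_assoc] at this
    exact this
  have g2 : (g : Cl n) * f (ib j) = ε • (f (ib j) * g) := by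
    have := hT (EuclideanSpace.single (ib j) 1)
    rw [t2, vec_smul, smul_mul_assoc] at this
    exact this
  have hpg : p f ia ib j * g = g * p f ia ib j := by
    rw [p, ← mul_assoc (g : Cl n), g1, smul_mul_assoc, mul_assoc, mul_assoc, g2, mul_smul_comm,
      smul_smul, hε, one_smul]
  obtain ⟨τ, hτ, hτ1⟩ := exists_trace (rel_e n) (adjoin_e n)
  have htr := trace_conj τ hτ x g hgx (p f ia ib j) hpg
  have hnd := List.nodup_finRange (n / 2)
  rw [inv_eq l μ h x hx, hx, normalForm_eq, ← N_single (f := f) (u := ia) (v := ib) j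
    (List.finRange (n / 2)) hnd (List.mem_finRange j), N_mul (rel_e n) (dis n),
    N_mul (rel_e n) (dis n), trace_N (rel_e n) (dis n) τ hτ hτ1 _ _ _ hnd,
    trace_N (rel_e n) (dis n) τ hτ hτ1 _ _ _ hnd, ← List.ofFn_eq_map, ← List.ofFn_eq_map,
    List.prod_ofFn, List.prod_ofFn] at htr
  set W : Fin (n / 2) → ℝ := fun k => if k = j then μ k else l k with hW
  have c1 : ∀ k, (if k = j then (0 : ℝ) else 1) * l k - (if k = j then (1 : ℝ) else 0) * μ k =
      (if k = j then (-1 : ℝ) else 1) * W k := by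
    intro k
    by_cases hk : k = j <;> simp [hW, hk]
  have c2 : ∀ k, (if k = j then (0 : ℝ) else 1) * l k - (if k = j then (1 : ℝ) else 0) * -μ k =
      W k := by
    intro k
    by_cases hk : k = j <;> simp [hW, hk]
  rw [Finset.prod_congr rfl (fun k _ => c1 k), Finset.prod_congr rfl (fun k _ => c2 k),
    Finset.prod_mul_distrib, Finset.prod_ite_eq'] at htr
  simp only [Finset.mem_univ, if_true] at htr
  have hz : ∏ k, W k = 0 := by linarith
  obtain ⟨k, _, hk⟩ := Finset.prod_eq_zero_iff.1 hz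
  by_cases hkj : k = j
  · subst hkj
    simp only [hW, if_true] at hk
    have := h k
    rw [hlj, hk] at this
    norm_num at this
  · simp only [hW, hkj, if_false] at hk
    exact hl k hkj hk

/-- For `n = 2m` with `m` odd some `μ_j` vanishes. -/
lemma omega_case {n : ℕ} (hn : n % 4 = 2) (l μ : Fin (n / 2) → ℝ)
    (h : ∀ j, l j ^ 2 + μ j ^ 2 = 1)
    (x g : (Cl n)ˣ) (hx : (x : Cl n) = normalForm l μ) (hgx : g * x = x⁻¹ * g)
    (hg : ∀ z : Cl n, (∀ v, z * vec v = -(vec v * z)) → z * g = g * z) : ∃ j, μ j = 0 := by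
  set f : Fin n → Cl n := fun i => e i with hf
  set ω : Cl n := normalForm (fun _ => 0) (fun _ => 1) with hω
  have hωe : ∀ i : Fin n, ω * e i = -(e i * ω) := by
    intro i
    have hi := i.2
    have hj : (i : ℕ) / 2 < n / 2 := by omega
    by_cases hi2 : (i : ℕ) % 2 = 0
    · have hia : i = ia ⟨i / 2, hj⟩ := Fin.ext (by simp only [ia]; omega)
      rw [hia]
      have := nf_ea (n := n) (fun _ => (0 : ℝ)) (fun _ => 1) (fun _ => by norm_num) ⟨i / 2, hj⟩
      rw [hω, this]
      simp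
    · have hib : i = ib ⟨i / 2, hj⟩ := Fin.ext (by simp only [ib]; omega)
      rw [hib]
      have := nf_eb (n := n) (fun _ => (0 : ℝ)) (fun _ => 1) (fun _ => by norm_num) ⟨i / 2, hj⟩
      rw [hω, this]
      simp
  have hωv : ∀ v, ω * vec v = -(vec v * ω) := by
    intro v
    have hv : v = ∑ i, (EuclideanSpace.basisFun (Fin n) ℝ).repr v i •
        (EuclideanSpace.basisFun (Fin n) ℝ) i := ((EuclideanSpace.basisFun (Fin n) ℝ).sum_repr v).symm
    rw [hv]
    simp only [vec, map_sum, map_smul, Finset.mul_sum, Finset.sum_mul, ← Finset.sum_neg_distrib,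
      mul_smul_comm, smul_mul_assoc]
    apply Finset.sum_congr rfl
    intro i _
    rw [← smul_neg]
    congr 1
    have := hωe i
    rw [EuclideanSpace.basisFun_apply]
    exact this
  have hωg := hg ω hωv
  obtain ⟨τ, hτ, hτ1⟩ := exists_trace (rel_e n) (adjoin_e n)
  have htr := trace_conj τ hτ x g hgx ω hωg
  have hnd := List.nodup_finRange (n / 2)
  rw [inv_eq l μ h x hx, hx, hω, normalForm_eq, normalForm_eq, N_mul (rel_e n) (dis n),
    N_mul (rel_e n) (dis n), trace_N (rel_e n) (dis n) τ hτ hτ1 _ _ _ hnd,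
    trace_N (rel_e n) (dis n) τ hτ hτ1 _ _ _ hnd, ← List.ofFn_eq_map, ← List.ofFn_eq_map,
    List.prod_ofFn, List.prod_ofFn] at htr
  have c1 : ∀ k, (0 : ℝ) * l k - 1 * μ k = (-1) * μ k := fun k => by ring
  have c2 : ∀ k, (0 : ℝ) * l k - 1 * -μ k = μ k := fun k => by ring
  rw [Finset.prod_congr rfl (fun k _ => c1 k), Finset.prod_congr rfl (fun k _ => c2 k),
    Finset.prod_mul_distrib, Finset.prod_const, Finset.card_univ, Fintype.card_fin,
    Odd.neg_one_pow (Nat.odd_iff.2 (by omega))] at htr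
  have hz : ∏ k, μ k = 0 := by linarith
  obtain ⟨k, _, hk⟩ := Finset.prod_eq_zero_iff.1 hz
  exact ⟨k, hk⟩

open Classical in
theorem necessary {n : ℕ} (l μ : Fin (n / 2) → ℝ) (h : ∀ j, l j ^ 2 + μ j ^ 2 = 1)
    (x : Spin n) (hx : ((x : (Cl n)ˣ) : Cl n) = normalForm l μ) (hs : StronglyReversible x) :
    Cond n (Finset.univ.filter fun j => l j = 0).card
      (Finset.univ.filter fun j => μ j = 0).card := by
  obtain ⟨g, hg2, hgx⟩ := hs
  rw [mul_inv_eq_iff_eq_mul] at hgx
  have hgx' : (g : (Cl n)ˣ) * (x : (Cl n)ˣ) = (x : (Cl n)ˣ)⁻¹ * (g : (Cl n)ˣ) := by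
    have := congrArg (Subtype.val) hgx
    simpa using this
  have hgg : ((g : (Cl n)ˣ) : Cl n) * ((g : (Cl n)ˣ) : Cl n) = 1 := by
    have := congrArg (fun t : Spin n => ((t : (Cl n)ˣ) : Cl n)) hg2
    simpa [sq] using this
  obtain ⟨⟨T, hT⟩, hgα, hgc⟩ := spin_act (g : (Cl n)ˣ) g.2
  obtain ⟨⟨X, hX⟩, -, -⟩ := spin_act (x : (Cl n)ˣ) x.2
  obtain ⟨k, hk4, hk⟩ := trace_lemma (g : (Cl n)ˣ) hgα T hT hgg
  by_contra hcond
  unfold Cond at hcond
  set a := (Finset.univ.filter fun j => l j = 0).card with ha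
  set b := (Finset.univ.filter fun j => μ j = 0).card with hb
  by_cases hn4 : n % 4 = 2
  · obtain ⟨j, hj⟩ := omega_case hn4 l μ h _ _ hx hgx' hgc
    have : 1 ≤ b := Finset.card_pos.2 ⟨j, by simp [hj]⟩
    omega
  have ha1 : a ≤ 1 := by omega
  set t : Fin n → ℝ := fun i =>
    inner ℝ (EuclideanSpace.single i (1 : ℝ)) (T (EuclideanSpace.single i 1)) with ht
  have htle : ∀ i, |t i| ≤ 1 := fun i => abs_inner_le T i
  have hsum : ∑ i, t i = (n : ℝ) - 2 * k := hk
  rw [sum_planes] at hsum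
  have hW : ∑ j : Fin (n / 2), (if l j = 0 then |t (ia j) + t (ib j)| else 0) < 2 := by
    rw [← Finset.sum_filter]
    rcases Nat.lt_or_ge 0 a with h0 | h0
    · have : a = 1 := by omega
      rw [ha, Finset.card_eq_one] at this
      obtain ⟨j0, hj0⟩ := this
      rw [hj0, Finset.sum_singleton]
      have hj0m : l j0 = 0 := by
        have : j0 ∈ (Finset.univ.filter fun j => l j = 0) := by rw [hj0]; simp
        exact (Finset.mem_filter.1 this).2
      refine pair_lt l μ h _ _ hx hgx' T hT j0 ?_ hj0m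
      intro k hk hlk
      have : k ∈ (Finset.univ.filter fun j => l j = 0) := by simp [hlk]
      rw [hj0, Finset.mem_singleton] at this
      exact hk this
    · have : a = 0 := by omega
      rw [ha, Finset.card_eq_zero] at this
      rw [this]
      simp
  have hF2 : ∑ j : Fin (n / 2), (if μ j = 0 then (2 : ℝ) else 0) = 2 * b := by
    rw [← Finset.sum_filter, Finset.sum_const, nsmul_eq_mul, mul_comm]
  have hbound : |∑ j : Fin (n / 2), (t (ia j) + t (ib j))| < 2 + 2 * b := by
    have h1 : |∑ j : Fin (n / 2), (t (ia j) + t (ib j))| ≤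
        ∑ j : Fin (n / 2), ((if l j = 0 then |t (ia j) + t (ib j)| else 0) +
          (if μ j = 0 then (2 : ℝ) else 0)) := by
      refine (Finset.abs_sum_le_sum_abs _ _).trans (Finset.sum_le_sum ?_)
      intro j _
      by_cases hl : l j = 0
      · rw [if_pos hl]
        split_ifs <;> linarith
      · by_cases hμ : μ j = 0
        · rw [if_neg hl, if_pos hμ]
          have := abs_add_le (t (ia j)) (t (ib j))
          have h1 := htle (ia j)
          have h2 := htle (ib j)
          linarith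
        · rw [if_neg hl, if_neg hμ, pair_zero l μ h _ _ hx hgx' T X hT hX j hl hμ]
          simp
    have hs : ∑ j : Fin (n / 2), ((if l j = 0 then |t (ia j) + t (ib j)| else 0) +
          (if μ j = 0 then (2 : ℝ) else 0)) =
        (∑ j : Fin (n / 2), (if l j = 0 then |t (ia j) + t (ib j)| else 0)) +
          ∑ j : Fin (n / 2), (if μ j = 0 then (2 : ℝ) else 0) := Finset.sum_add_distrib
    rw [hs, hF2] at h1
    linarith
  rw [abs_lt] at hbound
  by_cases hn2 : n % 2 = 1
  · rw [dif_pos hn2] at hsum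
    have hlast := htle ⟨n - 1, by omega⟩
    rw [abs_le] at hlast
    have hb0 : b = 0 := by omega
    rw [hb0] at hbound
    push_cast at hbound
    have k1 : (n : ℝ) < 2 * k + 3 := by linarith
    have k2 : (2 : ℝ) * k < n + 3 := by linarith
    have k1' : n < 2 * k + 3 := by exact_mod_cast k1
    have k2' : 2 * k < n + 3 := by exact_mod_cast k2
    omega
  · rw [dif_neg hn2, add_zero] at hsum
    have hb1 : (b : ℝ) ≤ 1 := by
      have : b ≤ 1 := by omega
      exact_mod_cast this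
    have k1 : (n : ℝ) < 2 * k + 4 := by linarith
    have k2 : (2 : ℝ) * k < n + 4 := by linarith
    have k1' : n < 2 * k + 4 := by exact_mod_cast k1
    have k2' : 2 * k < n + 4 := by exact_mod_cast k2
    omega

end Q122.SR
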