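import Pool.Agent.Q122.SR.Abs

/-! Products of commuting factors `a + b e_{2j} e_{2j+1}`. -/

namespace Q122.SR

open Algebra

section Pairs

variable {A : Type*} [Ring A] [Algebra ℝ A] {ι : Type*} [DecidableEq ι] {m : ℕ}

/-- Two disjoint injective families of indices. -/
structure Dis (u v : Fin m → ι) : Prop where
  uu : ∀ j k, j ≠ k → u j ≠ u k
  vv : ∀ j k, j ≠ k → v j ≠ v k
  uv : ∀ j k, u j ≠ v k

/-- `e_{2j} e_{2j+1}` -/
def p (f : ι → A) (u v : Fin m → ι) (j : Fin m) : A := f (u j) * f (v j)

/-- The factor `a_j + b_j e_{2j} e_{2j+1}`. -/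
def F (f : ι → A) (u v : Fin m → ι) (a b : Fin m → ℝ) (j : Fin m) : A :=
  algebraMap ℝ A (a j) + b j • (f (u j) * f (v j))

variable {f : ι → A} {u v : Fin m → ι}

lemma f_p (hf : Rel f) (i : ι) (j : Fin m) (h1 : i ≠ u j) (h2 : i ≠ v j) :
    f i * p f u v j = p f u v j * f i := by
  unfold p
  rw [← mul_assoc, hf.anti i _ h1, neg_mul, mul_assoc, hf.anti i _ h2, mul_neg, neg_neg, mul_assoc]

lemma fu_p (hf : Rel f) (hd : Dis u v) (j : Fin m) :
    p f u v j * f (u j) = -(f (u j) * p f u v j) := by
  unfold p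
  rw [mul_assoc, hf.anti (v j) (u j) (hd.uv j j).symm, mul_neg, ← mul_assoc]

lemma fv_p (hf : Rel f) (hd : Dis u v) (j : Fin m) :
    p f u v j * f (v j) = -(f (v j) * p f u v j) := by
  unfold p
  rw [← mul_assoc, hf.anti (v j) (u j) (hd.uv j j).symm, neg_mul, neg_neg]

lemma p_comm (hf : Rel f) (hd : Dis u v) (j k : Fin m) :
    p f u v j * p f u v k = p f u v k * p f u v j := by
  by_cases h : j = k
  · subst h; rfl
  · conv_lhs => rw [show p f u v j = f (u j) * f (v j) from rfl]
    conv_rhs => rw [show p f u v j = f (u j) * f (v j) from rfl]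
    rw [mul_assoc, f_p hf _ k (hd.uv k j).symm (hd.vv j k h), ← mul_assoc,
      f_p hf _ k (hd.uu j k h) (hd.uv j k), mul_assoc]

lemma p_sq (hf : Rel f) (hd : Dis u v) (j : Fin m) : p f u v j * p f u v j = -1 := by
  unfold p
  rw [show f (u j) * f (v j) * (f (u j) * f (v j)) = f (u j) * (f (v j) * f (u j)) * f (v j) by
    noncomm_ring, hf.anti (v j) (u j) (hd.uv j j).symm,
    show f (u j) * -(f (u j) * f (v j)) * f (v j) = -((f (u j) * f (u j)) * (f (v j) * f (v j))) by
    noncomm_ring, hf.sq, hf.sq]
  simp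

lemma F_eq (a b : Fin m → ℝ) (j : Fin m) :
    F f u v a b j = algebraMap ℝ A (a j) + b j • p f u v j := rfl

lemma F_comm (hf : Rel f) (hd : Dis u v) (a b c d : Fin m → ℝ) (j k : Fin m) :
    F f u v a b j * F f u v c d k = F f u v c d k * F f u v a b j := by
  simp only [F_eq, Algebra.algebraMap_eq_smul_one, mul_add, add_mul, smul_mul_smul_comm, one_mul,
    mul_one, p_comm hf hd j k]
  rw [mul_comm (a j), mul_comm (b j), mul_comm (a j), mul_comm (b j)]
  abel

lemma F_mul (hf : Rel f) (hd : Dis u v) (a b c d : Fin m → ℝ) (j : Fin m) :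
    F f u v a b j * F f u v c d j =
      F f u v (fun j => a j * c j - b j * d j) (fun j => a j * d j + b j * c j) j := by
  simp only [F_eq, Algebra.algebraMap_eq_smul_one, mul_add, add_mul, smul_mul_smul_comm, one_mul,
    mul_one, p_sq hf hd j]
  simp only [add_smul, sub_smul, smul_neg]
  abel

/-- The product over a list. -/
def N (f : ι → A) (u v : Fin m → ι) (a b : Fin m → ℝ) (l : List (Fin m)) : A :=
  (l.map (F f u v a b)).prod

lemma N_cons (a b : Fin m → ℝ) (j : Fin m) (l : List (Fin m)) :
    N f u v a b (j :: l) = F f u v a b j * N f u v a b l := by simp [N]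

lemma N_comm_F (hf : Rel f) (hd : Dis u v) (a b c d : Fin m → ℝ) (k : Fin m) (l : List (Fin m)) :
    N f u v a b l * F f u v c d k = F f u v c d k * N f u v a b l := by
  induction l with
  | nil => simp [N]
  | cons j l ih => rw [N_cons, mul_assoc, ih, ← mul_assoc, F_comm hf hd, mul_assoc]

lemma N_mul (hf : Rel f) (hd : Dis u v) (a b c d : Fin m → ℝ) (l : List (Fin m)) :
    N f u v a b l * N f u v c d l =
      N f u v (fun j => a j * c j - b j * d j) (fun j => a j * d j + b j * c j) l := by
  induction l with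
  | nil => simp [N]
  | cons j l ih =>
    rw [N_cons, N_cons, N_cons, ← ih, ← F_mul hf hd,
      show F f u v a b j * N f u v a b l * (F f u v c d j * N f u v c d l)
        = F f u v a b j * (N f u v a b l * F f u v c d j) * N f u v c d l by noncomm_ring,
      N_comm_F hf hd]
    noncomm_ring

lemma f_N (hf : Rel f) (i : ι) (a b : Fin m → ℝ) (l : List (Fin m))
    (h1 : ∀ j ∈ l, i ≠ u j) (h2 : ∀ j ∈ l, i ≠ v j) :
    f i * N f u v a b l = N f u v a b l * f i := by
  induction l with
  | nil => simp [N]
  | cons j l ih =>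
    have ih' := ih (fun k hk => h1 k (List.mem_cons_of_mem _ hk))
      (fun k hk => h2 k (List.mem_cons_of_mem _ hk))
    have e1 : f i * F f u v a b j = F f u v a b j * f i := by
      rw [F_eq, mul_add, add_mul, ← Algebra.commutes, mul_smul_comm, smul_mul_assoc,
        f_p hf i j (h1 j (by simp)) (h2 j (by simp))]
    rw [N_cons, ← mul_assoc, e1, mul_assoc, ih', mul_assoc]

/-- The trace of a product of factors. -/
lemma trace_N (hf : Rel f) (hd : Dis u v) (τ : A →ₗ[ℝ] ℝ) (hτ : ∀ x y, τ (x * y) = τ (y * x))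
    (hτ1 : τ 1 = 1) (a b : Fin m → ℝ) (l : List (Fin m)) (hl : l.Nodup) :
    τ (N f u v a b l) = (l.map a).prod := by
  induction l with
  | nil => simp [N, hτ1]
  | cons j l ih =>
    rw [List.nodup_cons] at hl
    have hj := hl.1
    have hc : f (u j) * N f u v a b l = N f u v a b l * f (u j) := by
      apply f_N hf
      · intro k hk; apply hd.uu; rintro rfl; exact hj hk
      · intro k _; exact hd.uv j k
    have h0 : τ (p f u v j * N f u v a b l) = 0 := by
      have e1 : τ (p f u v j * N f u v a b l) = -τ (p f u v j * N f u v a b l) := by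
        conv_lhs => rw [show p f u v j = f (u j) * f (v j) from rfl, mul_assoc, hτ, mul_assoc, ← hc,
          ← mul_assoc, hf.anti (v j) (u j) (hd.uv j j).symm, neg_mul, map_neg]
        rfl
      linarith
    rw [N_cons, F_eq, add_mul, map_add, smul_mul_assoc, map_smul, h0,
      Algebra.algebraMap_eq_smul_one, smul_mul_assoc, one_mul, map_smul, ih hl.2]
    simp

/-- Moving `g` through a product. -/
lemma g_N (g : A) (s : Fin m → ℝ) (hg : ∀ j, g * p f u v j = s j • (p f u v j * g))
    (a b : Fin m → ℝ) (l : List (Fin m)) :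
    g * N f u v a b l = N f u v a (fun j => s j * b j) l * g := by
  induction l with
  | nil => simp [N]
  | cons j l ih =>
    have e1 : g * F f u v a b j = F f u v a (fun j => s j * b j) j * g := by
      rw [F_eq, F_eq, mul_add, add_mul, ← Algebra.commutes, mul_smul_comm, hg, smul_mul_assoc,
        smul_smul, mul_comm (s j)]
    rw [N_cons, N_cons, ← mul_assoc, e1, mul_assoc, ih, mul_assoc]

lemma N_smul (a b c d κ : Fin m → ℝ) (h : ∀ j, F f u v a b j = κ j • F f u v c d j)
    (l : List (Fin m)) :
    N f u v a b l = (l.map κ).prod • N f u v c d l := by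
  induction l with
  | nil => simp [N]
  | cons j l ih => rw [N_cons, N_cons, ih, h, List.map_cons, List.prod_cons, smul_mul_smul_comm]

lemma N_one (l : List (Fin m)) (a b : Fin m → ℝ) (ha : ∀ j ∈ l, a j = 1) (hb : ∀ j ∈ l, b j = 0) :
    N f u v a b l = 1 := by
  induction l with
  | nil => simp [N]
  | cons j l ih =>
    rw [N_cons, ih (fun k hk => ha k (List.mem_cons_of_mem _ hk))
      (fun k hk => hb k (List.mem_cons_of_mem _ hk)), F_eq, ha j (by simp), hb j (by simp)]
    simp

/-- A single factor `p j0` as a product. -/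
lemma N_single (j0 : Fin m) (l : List (Fin m)) (hl : l.Nodup) (hj : j0 ∈ l) :
    N f u v (fun j => if j = j0 then 0 else 1) (fun j => if j = j0 then 1 else 0) l
      = p f u v j0 := by
  induction l with
  | nil => simp at hj
  | cons k l ih =>
    rw [List.nodup_cons] at hl
    by_cases hk : k = j0
    · subst hk
      rw [N_cons, N_one, F_eq]
      · simp
      · intro j hj'; rw [if_neg]; rintro rfl; exact hl.1 hj'
      · intro j hj'; rw [if_neg]; rintro rfl; exact hl.1 hj'
    · have hj' : j0 ∈ l := by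
        rcases List.mem_cons.1 hj with h | h
        · exact absurd h.symm hk
        · exact h
      rw [N_cons, ih hl.2 hj', F_eq]
      simp [hk]

end Pairs

end Q122.SR
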