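import Pool.Agent.Q122.SR.Defs

/-! Sufficiency. -/

namespace Q122.SR

open Algebra

lemma sum_pairs {M : Type*} [AddCommMonoid M] (ψ : ℕ → M) (m : ℕ) :
    ∑ i ∈ Finset.range (2 * m), ψ i = ∑ j ∈ Finset.range m, (ψ (2 * j) + ψ (2 * j + 1)) := by
  induction m with
  | zero => simp
  | succ m ih =>
    rw [show 2 * (m + 1) = 2 * m + 1 + 1 by ring, Finset.sum_range_succ, Finset.sum_range_succ, ih,
      Finset.sum_range_succ, add_assoc]

lemma sum_planes {M : Type*} [AddCommMonoid M] {n : ℕ} (φ : Fin n → M) :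
    ∑ i, φ i = ∑ j : Fin (n / 2), (φ (ia j) + φ (ib j)) +
      (if h : n % 2 = 1 then φ ⟨n - 1, by omega⟩ else 0) := by
  set ψ : ℕ → M := fun i => if h : i < n then φ ⟨i, h⟩ else 0 with hψ
  have h1 : ∑ i, φ i = ∑ i ∈ Finset.range n, ψ i := by
    rw [Finset.sum_range]
    apply Finset.sum_congr rfl
    intro i _
    simp [hψ]
  have h2 : ∑ j : Fin (n / 2), (φ (ia j) + φ (ib j)) =
      ∑ j ∈ Finset.range (n / 2), (ψ (2 * j) + ψ (2 * j + 1)) := by
    rw [Finset.sum_range]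
    apply Finset.sum_congr rfl
    intro j _
    have hj := j.2
    have a1 : 2 * (j : ℕ) < n := by omega
    have a2 : 2 * (j : ℕ) + 1 < n := by omega
    simp only [hψ, a1, a2, dif_pos, ia, ib]
  rw [h1, h2, ← sum_pairs]
  by_cases h : n % 2 = 1
  · rw [dif_pos h]
    have : n = 2 * (n / 2) + 1 := by omega
    conv_lhs => rw [this]
    rw [Finset.sum_range_succ]
    congr 1
    have a1 : 2 * (n / 2) < n := by omega
    simp only [hψ, a1, dif_pos]
    congr 1
    exact Fin.ext (by simp only; omega)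
  · rw [dif_neg h, add_zero]
    congr 2
    omega

lemma normalForm_mem {n : ℕ} (l μ : Fin (n / 2) → ℝ) (h : ∀ j, l j ^ 2 + μ j ^ 2 = 1)
    (L : List (Fin (n / 2))) :
    ∃ x ∈ Spin n, (x : Cl n) = N (fun i : Fin n => (e i : Cl n)) ia ib l μ L := by
  induction L with
  | nil => exact ⟨1, one_mem _, by simp [N]⟩
  | cons j L ih =>
    obtain ⟨x, hx, hx'⟩ := ih
    set E1 : EuclideanSpace ℝ (Fin n) := EuclideanSpace.single (ia j) 1
    set E2 : EuclideanSpace ℝ (Fin n) := EuclideanSpace.single (ib j) 1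
    have hne : ia j ≠ ib j := (dis n).uv j j
    have i11 : inner ℝ E1 E1 = (1 : ℝ) := by rw [single_inner]; simp
    have i22 : inner ℝ E2 E2 = (1 : ℝ) := by rw [single_inner]; simp
    have i12 : inner ℝ E1 E2 = (0 : ℝ) := by rw [single_inner]; simp [hne]
    have i21 : inner ℝ E2 E1 = (0 : ℝ) := by rw [single_inner]; simp [hne.symm]
    set w : EuclideanSpace ℝ (Fin n) := (-(l j)) • E1 + (μ j) • E2 with hw
    have hE1 : ‖E1‖ = 1 := by
      rw [@norm_eq_sqrt_real_inner, i11]; simp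
    have hw1 : ‖w‖ = 1 := by
      rw [@norm_eq_sqrt_real_inner]
      have : inner ℝ w w = (1 : ℝ) := by
        rw [hw]
        simp only [inner_add_left, inner_add_right, real_inner_smul_left, real_inner_smul_right,
          i11, i12, i21, i22]
        have := h j
        nlinarith
      rw [this]; simp
    refine ⟨uv E1 hE1 * uv w hw1 * x, mul_mem (Subgroup.subset_closure ⟨E1, w, hE1, hw1, rfl⟩) hx,
      ?_⟩
    rw [N_cons, Units.val_mul, hx', Units.val_mul]
    congr 1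
    have hval : ((uv E1 hE1 : (Cl n)ˣ) : Cl n) * ((uv w hw1 : (Cl n)ˣ) : Cl n) = vec E1 * vec w := rfl
    rw [hval, hw, vec_add, vec_smul, vec_smul, mul_add, mul_smul_comm, mul_smul_comm, vec_sq, i11, F,
      Algebra.algebraMap_eq_smul_one, Algebra.algebraMap_eq_smul_one, smul_smul]
    congr 2
    ring

lemma inv_eq {n : ℕ} (l μ : Fin (n / 2) → ℝ) (h : ∀ j, l j ^ 2 + μ j ^ 2 = 1) (x : (Cl n)ˣ)
    (hx : (x : Cl n) = normalForm l μ) :
    ((x⁻¹ : (Cl n)ˣ) : Cl n) =
      N (fun i : Fin n => (e i : Cl n)) ia ib l (fun j => -μ j) (List.finRange (n / 2)) := by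
  symm
  apply Units.eq_inv_of_mul_eq_one_left
  rw [hx, normalForm_eq, N_mul (rel_e n) (dis n)]
  apply N_one
  · intro j _; have := h j; nlinarith
  · intro j _; ring

lemma suff_general {n : ℕ} (l μ : Fin (n / 2) → ℝ) (h : ∀ j, l j ^ 2 + μ j ^ 2 = 1)
    (x : Spin n) (hx : ((x : (Cl n)ˣ) : Cl n) = normalForm l μ) (D : Finset (Fin n))
    (hD : D.card % 4 = 0) (κ : Fin (n / 2) → ℝ) (hκ : ∏ j, κ j = 1)
    (hF : ∀ j, ((if ia j ∈ D then (-1 : ℝ) else 1) * (if ib j ∈ D then (-1 : ℝ) else 1) = -1 ∧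
        κ j = 1) ∨
      ((if ia j ∈ D then (-1 : ℝ) else 1) * (if ib j ∈ D then (-1 : ℝ) else 1) = 1 ∧
        ((μ j = 0 ∧ κ j = 1) ∨ (l j = 0 ∧ κ j = -1)))) : StronglyReversible x := by
  set f : Fin n → Cl n := fun i => e i with hf
  set L := D.toList with hLdef
  have hn : L.Nodup := D.nodup_toList
  have hlen : L.length = D.card := D.length_toList
  have hmem : ∀ i, i ∈ L ↔ i ∈ D := fun i => by simp [hLdef]
  have hk : L.length % 4 = 0 := by rw [hlen, hD]
  have hmemS := list_mem_spin (L.length / 2) L (by omega)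
  set g0 := (L.map (fun i => uv (EuclideanSpace.single i (1 : ℝ)) (by simp))).prod with hg0
  have hcoe : (g0 : Cl n) = P f L := coe_list L
  have hev : (-1 : ℝ) ^ L.length = 1 := Even.neg_one_pow (Nat.even_iff.2 (by omega))
  have hPf : ∀ i, P f L * f i = (if i ∈ D then (-1 : ℝ) else 1) • (f i * P f L) := by
    intro i
    rw [P_comm (rel_e n) L hn i, hev, one_mul]
    simp only [hmem]
    rfl
  refine ⟨⟨g0, hmemS⟩, ?_, ?_⟩
  · apply Subtype.ext
    apply Units.ext
    simp only [sq, Subgroup.coe_mul, Units.val_mul, hcoe]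
    rw [P_sq (rel_e n) L hn]
    have : Even ((L.length + 1).choose 2) := by
      rw [Nat.choose_two_right]
      obtain ⟨t, ht⟩ : ∃ t, L.length = 4 * t := ⟨L.length / 4, by omega⟩
      rw [ht]
      have : (4 * t + 1) * (4 * t + 1 - 1) / 2 = (4 * t + 1) * (2 * t) := by
        rw [show (4 * t + 1) * (4 * t + 1 - 1) = (4 * t + 1) * (2 * t) * 2 by simp; ring]
        exact Nat.mul_div_cancel _ (by norm_num)
      rw [this]
      exact ⟨(4 * t + 1) * t, by ring⟩
    rw [this.neg_one_pow]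
    simp
  · rw [mul_inv_eq_iff_eq_mul]
    apply Subtype.ext
    apply Units.ext
    have hinv := inv_eq l μ h (x : (Cl n)ˣ) hx
    simp only [Subgroup.coe_mul, Units.val_mul, hcoe, Subgroup.coe_inv]
    rw [hinv, hx, normalForm_eq]
    have hgp : ∀ j, P f L * p f ia ib j =
        ((if ia j ∈ D then (-1 : ℝ) else 1) * (if ib j ∈ D then (-1 : ℝ) else 1)) •
          (p f ia ib j * P f L) := by
      intro j
      rw [p, ← mul_assoc, hPf, smul_mul_assoc, mul_assoc, hPf, mul_smul_comm, smul_smul, mul_assoc]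
    rw [g_N (P f L) _ hgp]
    congr 1
    rw [N_smul (f := f) (u := ia) (v := ib) _ _ l (fun j => -μ j) κ]
    · have : ((List.finRange (n / 2)).map κ).prod = 1 := by
        rw [← List.ofFn_eq_map, List.prod_ofFn, hκ]
      rw [this, one_smul]
    · intro j
      rw [F_eq, F_eq, smul_add, Algebra.algebraMap_eq_smul_one, smul_smul, smul_smul]
      rcases hF j with ⟨h1, h2⟩ | ⟨h1, ⟨h2, h3⟩ | ⟨h2, h3⟩⟩
      · rw [h1, h2]; simp
      · rw [h1, h2, h3]; simp
      · rw [h1, h2, h3]; simp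

open Classical in
lemma suff_c {n : ℕ} (l μ : Fin (n / 2) → ℝ) (h : ∀ j, l j ^ 2 + μ j ^ 2 = 1)
    (x : Spin n) (hx : ((x : (Cl n)ˣ) : Cl n) = normalForm l μ) (c : Fin (n / 2) → ℕ) (δ : ℕ)
    (hδ : δ = 0 ∨ (δ = 1 ∧ n % 2 = 1))
    (hc : (∑ j, c j + δ) % 4 = 0) (κ : Fin (n / 2) → ℝ) (hκ : ∏ j, κ j = 1)
    (hF : ∀ j, (c j = 1 ∧ κ j = 1) ∨
      ((c j = 0 ∨ c j = 2) ∧ ((μ j = 0 ∧ κ j = 1) ∨ (l j = 0 ∧ κ j = -1)))) :
    StronglyReversible x := by
  set D : Finset (Fin n) := Finset.univ.filter (fun i : Fin n =>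
    if h : (i : ℕ) / 2 < n / 2 then (if (i : ℕ) % 2 = 0 then 1 ≤ c ⟨i / 2, h⟩ else 2 ≤ c ⟨i / 2, h⟩)
    else δ = 1) with hD
  have ha : ∀ j, ia j ∈ D ↔ 1 ≤ c j := by
    intro j
    have hj := j.2
    have a1 : 2 * (j : ℕ) / 2 = j := by omega
    have a2 : 2 * (j : ℕ) % 2 = 0 := by omega
    simp only [hD, Finset.mem_filter, Finset.mem_univ, true_and, ia, a1, hj, dif_pos, a2, if_true]
  have hb : ∀ j, ib j ∈ D ↔ 2 ≤ c j := by
    intro j
    have hj := j.2
    have a1 : (2 * (j : ℕ) + 1) / 2 = j := by omega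
    have a2 : ¬ ((2 * (j : ℕ) + 1) % 2 = 0) := by omega
    simp only [hD, Finset.mem_filter, Finset.mem_univ, true_and, ib, a1, hj, dif_pos, a2, if_false]
  have hcard : D.card = ∑ j, c j + δ := by
    have h1 : D.card = ∑ i : Fin n, if i ∈ D then 1 else 0 := by
      rw [Finset.sum_ite_mem]; simp
    rw [h1, sum_planes]
    congr 1
    · apply Finset.sum_congr rfl
      intro j _
      simp only [ha, hb]
      rcases hF j with ⟨h1, _⟩ | ⟨h1 | h1, _⟩ <;> simp [h1]
    · by_cases hn : n % 2 = 1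
      · rw [dif_pos hn]
        have a1 : ¬ ((n - 1) / 2 < n / 2) := by omega
        have : (⟨n - 1, by omega⟩ : Fin n) ∈ D ↔ δ = 1 := by
          simp only [hD, Finset.mem_filter, Finset.mem_univ, true_and, a1, dif_neg,
            not_false_eq_true]
        simp only [this]
        rcases hδ with h | h
        · simp [h]
        · simp [h.1]
      · rw [dif_neg hn]
        rcases hδ with h | h
        · exact h.symm
        · exact absurd h.2 hn
  apply suff_general l μ h x hx D (by rw [hcard, hc]) κ hκ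
  intro j
  simp only [ha, hb]
  rcases hF j with ⟨h1, h2⟩ | ⟨h1 | h1, h3⟩
  · left; simp [h1, h2]
  · right; exact ⟨by simp [h1], h3⟩
  · right; exact ⟨by simp [h1], h3⟩

end Q122.SR
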