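import Pool.Agent.Q122.SR.Suff

/-! Sufficiency: the cases. -/

namespace Q122.SR

open Algebra

section

variable {n : ℕ} (l μ : Fin (n / 2) → ℝ) (h : ∀ j, l j ^ 2 + μ j ^ 2 = 1)
  (x : Spin n) (hx : ((x : (Cl n)ˣ) : Cl n) = normalForm l μ)

include h hx

lemma type0 (δ : ℕ) (hδ : δ = 0 ∨ (δ = 1 ∧ n % 2 = 1)) (hc : (n / 2 + δ) % 4 = 0) :
    StronglyReversible x := by
  apply suff_c l μ h x hx (fun _ => 1) δ hδ _ (fun _ => 1) (by simp)
  · intro j; left; simp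
  · simpa using hc

lemma type1 (δ : ℕ) (hδ : δ = 0 ∨ (δ = 1 ∧ n % 2 = 1)) (j1 : Fin (n / 2)) (hj : μ j1 = 0) (y : ℕ)
    (hy : y = 0 ∨ y = 2) (hc : (n / 2 + y + δ) % 4 = 1) : StronglyReversible x := by
  apply suff_c l μ h x hx (fun j => if j = j1 then y else 1) δ hδ _ (fun _ => 1) (by simp)
  · intro j
    by_cases hjj : j = j1
    · right
      subst hjj
      simp only [if_true]
      exact ⟨hy, Or.inl ⟨hj, trivial⟩⟩
    · left; simp [hjj]
  · have h1 : ∑ j : Fin (n / 2), (if j = j1 then y else 1) + 1 = n / 2 + y := by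
      have h2 : ∑ j : Fin (n / 2), ((if j = j1 then y else 1) + (if j = j1 then 1 else 0)) =
          ∑ j : Fin (n / 2), (1 + (if j = j1 then y else 0)) := by
        apply Finset.sum_congr rfl
        intro j _
        by_cases hjj : j = j1 <;> simp [hjj]
        omega
      rw [Finset.sum_add_distrib, Finset.sum_add_distrib, Finset.sum_ite_eq', Finset.sum_ite_eq'] at h2
      simpa using h2
    omega

lemma type2 (δ : ℕ) (hδ : δ = 0 ∨ (δ = 1 ∧ n % 2 = 1)) (j1 j2 : Fin (n / 2)) (h12 : j1 ≠ j2)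
    (hj : (μ j1 = 0 ∧ μ j2 = 0) ∨ (l j1 = 0 ∧ l j2 = 0))
    (hc : (n / 2 + δ) % 4 = 2) : StronglyReversible x := by
  have h1 : ∑ j : Fin (n / 2), (if j = j1 ∨ j = j2 then 0 else 1) + 2 = n / 2 := by
    have h2 : ∑ j : Fin (n / 2), (((if j = j1 ∨ j = j2 then 0 else 1) + (if j = j1 then 1 else 0)) +
        (if j = j2 then 1 else 0)) = ∑ j : Fin (n / 2), 1 := by
      apply Finset.sum_congr rfl
      intro j _
      by_cases hjj : j = j1
      · subst hjj; simp [h12]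
      · by_cases hjj2 : j = j2
        · subst hjj2; simp [hjj]
        · simp [hjj, hjj2]
    rw [Finset.sum_add_distrib, Finset.sum_add_distrib, Finset.sum_ite_eq', Finset.sum_ite_eq'] at h2
    simp only [Finset.mem_univ, if_true, Finset.sum_const, Finset.card_univ, Fintype.card_fin,
      smul_eq_mul, mul_one] at h2
    omega
  rcases hj with ⟨hj1, hj2⟩ | ⟨hj1, hj2⟩
  · apply suff_c l μ h x hx (fun j => if j = j1 ∨ j = j2 then 0 else 1) δ hδ _ (fun _ => 1) (by simp)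
    · intro j
      by_cases hjj : j = j1 ∨ j = j2
      · right
        simp only [hjj, if_true, true_or, true_and]
        left
        rcases hjj with rfl | rfl
        · exact ⟨hj1, trivial⟩
        · exact ⟨hj2, trivial⟩
      · left; simp [hjj]
    · omega
  · apply suff_c l μ h x hx (fun j => if j = j1 ∨ j = j2 then 0 else 1) δ hδ _
      (fun j => (if j = j1 then (-1 : ℝ) else 1) * (if j = j2 then (-1 : ℝ) else 1))
      (by rw [Finset.prod_mul_distrib, Finset.prod_ite_eq', Finset.prod_ite_eq']; simp)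
    · intro j
      by_cases hjj : j = j1
      · right
        subst hjj
        simp [h12, hj1]
      · by_cases hjj2 : j = j2
        · right
          subst hjj2
          simp [hjj, hj2]
        · left; simp [hjj, hjj2]
    · omega

end

/-- The condition of the theorem. -/
def Cond (n a b : ℕ) : Prop :=
  (n % 8 = 0 ∨ n % 8 = 1 ∨ n % 8 = 7) ∨
  ((n % 8 = 2 ∨ n % 8 = 6) ∧ 1 ≤ b) ∨
  ((n % 8 = 3 ∨ n % 8 = 5) ∧ (1 ≤ b ∨ 2 ≤ a)) ∨
  (n % 8 = 4 ∧ (2 ≤ a ∨ 2 ≤ b))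

open Classical in
theorem sufficient {n : ℕ} (l μ : Fin (n / 2) → ℝ) (h : ∀ j, l j ^ 2 + μ j ^ 2 = 1)
    (x : Spin n) (hx : ((x : (Cl n)ˣ) : Cl n) = normalForm l μ)
    (hc : Cond n (Finset.univ.filter fun j => l j = 0).card
      (Finset.univ.filter fun j => μ j = 0).card) : StronglyReversible x := by
  have hone : ∀ ν : Fin (n / 2) → ℝ, 1 ≤ (Finset.univ.filter fun j => ν j = 0).card →
      ∃ j, ν j = 0 := by
    intro ν hν
    obtain ⟨j, hj⟩ := Finset.card_pos.1 hν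
    exact ⟨j, (Finset.mem_filter.1 hj).2⟩
  have htwo : ∀ ν : Fin (n / 2) → ℝ, 2 ≤ (Finset.univ.filter fun j => ν j = 0).card →
      ∃ j k, j ≠ k ∧ ν j = 0 ∧ ν k = 0 := by
    intro ν hν
    obtain ⟨j, hj, k, hk, hjk⟩ := Finset.one_lt_card.1 hν
    exact ⟨j, k, hjk, (Finset.mem_filter.1 hj).2, (Finset.mem_filter.1 hk).2⟩
  rcases hc with (hc | hc | hc) | ⟨hc | hc, hb⟩ | ⟨hc | hc, hb | ha⟩ | ⟨hc, ha | hb⟩
  · exact type0 l μ h x hx 0 (Or.inl rfl) (by omega)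
  · exact type0 l μ h x hx 0 (Or.inl rfl) (by omega)
  · exact type0 l μ h x hx 1 (Or.inr ⟨rfl, by omega⟩) (by omega)
  · obtain ⟨j, hj⟩ := hone μ hb
    exact type1 l μ h x hx 0 (Or.inl rfl) j hj 0 (Or.inl rfl) (by omega)
  · obtain ⟨j, hj⟩ := hone μ hb
    exact type1 l μ h x hx 0 (Or.inl rfl) j hj 2 (Or.inr rfl) (by omega)
  · obtain ⟨j, hj⟩ := hone μ hb
    exact type1 l μ h x hx 0 (Or.inl rfl) j hj 0 (Or.inl rfl) (by omega)
  · obtain ⟨j, k, hjk, hj, hk⟩ := htwo l ha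
    exact type2 l μ h x hx 1 (Or.inr ⟨rfl, by omega⟩) j k hjk (Or.inr ⟨hj, hk⟩) (by omega)
  · obtain ⟨j, hj⟩ := hone μ hb
    exact type1 l μ h x hx 1 (Or.inr ⟨rfl, by omega⟩) j hj 2 (Or.inr rfl) (by omega)
  · obtain ⟨j, k, hjk, hj, hk⟩ := htwo l ha
    exact type2 l μ h x hx 0 (Or.inl rfl) j k hjk (Or.inr ⟨hj, hk⟩) (by omega)
  · obtain ⟨j, k, hjk, hj, hk⟩ := htwo l ha
    exact type2 l μ h x hx 0 (Or.inl rfl) j k hjk (Or.inr ⟨hj, hk⟩) (by omega)
  · obtain ⟨j, k, hjk, hj, hk⟩ := htwo μ hb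
    exact type2 l μ h x hx 0 (Or.inl rfl) j k hjk (Or.inl ⟨hj, hk⟩) (by omega)

end Q122.SR
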